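import Mathlib

/-! Averages of periodic functions along base-4 levels, and the level recursion. -/

namespace Pool.Agent.H6.LvdP2

open Finset

/-- sum over one period is invariant under integer shifts -/
lemma sum_shift {g : ℤ → ℝ} {n : ℕ} (hg : ∀ x, g (x + n) = g x) (s : ℤ) :
    ∑ i ∈ range n, g (i + s) = ∑ i ∈ range n, g i := by
  have step : ∀ s : ℤ, ∑ i ∈ range n, g (i + (s + 1)) = ∑ i ∈ range n, g (i + s) := by
    intro s
    have h1 := Finset.sum_range_succ (fun i : ℕ => g ((i : ℤ) + s)) n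
    have h2 := Finset.sum_range_succ' (fun i : ℕ => g ((i : ℤ) + s)) n
    have h3 : g ((n : ℤ) + s) = g (((0 : ℕ) : ℤ) + s) := by
      rw [add_comm, hg]; simp
    rw [h1, h3] at h2
    have h4 := add_right_cancel h2
    rw [h4]
    apply Finset.sum_congr rfl
    intro i _
    congr 1
    push_cast
    ring
  induction s using Int.induction_on with
  | zero => simp
  | succ m ih => rw [step, ih]
  | pred m ih =>
    rw [← ih, ← step (-(m : ℤ) - 1)]
    apply Finset.sum_congr rfl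
    intro i _
    congr 1
    ring

lemma sum_four_mul (g : ℤ → ℝ) (n : ℕ) :
    ∑ z ∈ range (4 * n), g z =
      ∑ z ∈ range n, (g (4 * z) + g (4 * z + 1) + g (4 * z + 2) + g (4 * z + 3)) := by
  induction n with
  | zero => simp
  | succ n ih =>
    rw [show 4 * (n + 1) = 4 * n + 1 + 1 + 1 + 1 by ring, sum_range_succ, sum_range_succ,
      sum_range_succ, sum_range_succ, ih, sum_range_succ]
    push_cast
    ring_nf

lemma sum_mul_four (g : ℤ → ℝ) (n : ℕ) :
    ∑ z ∈ range (4 * n), g z =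
      ∑ z ∈ range n, (g z + g (z + n) + g (z + 2 * n) + g (z + 3 * n)) := by
  have h : ∀ m : ℕ, ∑ z ∈ range (m * n), g z =
      ∑ z ∈ range n, ∑ j ∈ range m, g (z + j * n) := by
    intro m
    induction m with
    | zero => simp
    | succ m ih =>
      rw [Nat.succ_mul, Finset.sum_range_add, ih, ← Finset.sum_add_distrib]
      apply Finset.sum_congr rfl
      intro z _
      rw [Finset.sum_range_succ]
      congr 2
      push_cast
      ring
  rw [h 4]
  apply Finset.sum_congr rfl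
  intro z _
  simp [Finset.sum_range_succ]

/-- average of `F` over the `4^i` top digits above `4^s` -/
noncomputable def lev (s i : ℕ) (F : ℤ → ℝ) (z : ℤ) : ℝ :=
  (∑ c ∈ range (4 ^ i), F (z + 4 ^ s * c)) / 4 ^ i

/-- average over one period of length `4^s` -/
noncomputable def mean (s : ℕ) (g : ℤ → ℝ) : ℝ := (∑ z ∈ range (4 ^ s), g z) / 4 ^ s

lemma lev_zero (s : ℕ) (F : ℤ → ℝ) (z : ℤ) : lev s 0 F z = F z := by simp [lev]

lemma lev_top (t : ℕ) (F : ℤ → ℝ) : lev 0 t F 0 = mean t F := by simp [lev, mean]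

lemma lev_periodic {s i : ℕ} {F : ℤ → ℝ} (hF : ∀ x, F (x + 4 ^ (s + i)) = F x) (z : ℤ) :
    lev s i F (z + 4 ^ s) = lev s i F z := by
  unfold lev
  congr 1
  have hg : ∀ x : ℤ, (fun x : ℤ => F (z + 4 ^ s * x)) (x + (4 ^ i : ℕ)) =
      (fun x : ℤ => F (z + 4 ^ s * x)) x := by
    intro x
    simp only
    rw [← hF (z + 4 ^ s * x)]
    congr 1
    push_cast
    rw [pow_add]
    ring
  have := sum_shift (g := fun x : ℤ => F (z + 4 ^ s * x)) (n := 4 ^ i) hg 1
  rw [← this]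
  apply Finset.sum_congr rfl
  intro c _
  congr 1
  ring

lemma mean_zero (g : ℤ → ℝ) : mean 0 g = g 0 := by simp [mean]

lemma mean_le_mean {s : ℕ} {g h : ℤ → ℝ} (H : ∀ z, g z ≤ h z) : mean s g ≤ mean s h := by
  unfold mean
  gcongr with z _
  exact H z

/-- the averaged (linear) one-step inequality -/
lemma lev_step {s i : ℕ} {k : ℤ} {F F' : ℤ → ℝ} {pm p0 p1 : ℝ} {em e0 e1 : ℤ}
    (H : ∀ ζ : ℤ, pm * F (4 * ζ + k + em) + p0 * F (4 * ζ + e0) + p1 * F (4 * ζ - k + e1) ≤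
      (F' ζ + F' (ζ + 4 ^ (s + i)) + F' (ζ + 2 * 4 ^ (s + i)) + F' (ζ + 3 * 4 ^ (s + i))) / 4)
    (z : ℤ) :
    pm * lev (s + 1) i F (4 * z + k + em) + p0 * lev (s + 1) i F (4 * z + e0) +
      p1 * lev (s + 1) i F (4 * z - k + e1) ≤ lev s (i + 1) F' z := by
  have h1 : lev s (i + 1) F' z = (∑ c ∈ range (4 ^ i),
      (F' (z + 4 ^ s * c) + F' (z + 4 ^ s * c + 4 ^ (s + i)) +
        F' (z + 4 ^ s * c + 2 * 4 ^ (s + i)) + F' (z + 4 ^ s * c + 3 * 4 ^ (s + i))) / 4) /
        4 ^ i := by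
    unfold lev
    rw [pow_succ' 4 i, sum_mul_four (fun c : ℤ => F' (z + 4 ^ s * c)) (4 ^ i),
      ← Finset.sum_div, div_div, pow_succ' (4 : ℝ) i]
    congr 1
    apply Finset.sum_congr rfl
    intro c _
    push_cast
    rw [pow_add]
    congr 1
    · congr 1
      · congr 1
        congr 1
        ring
      · congr 1
        ring
    · congr 1
      ring
  have h2 : pm * lev (s + 1) i F (4 * z + k + em) + p0 * lev (s + 1) i F (4 * z + e0) +
      p1 * lev (s + 1) i F (4 * z - k + e1) =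
      (∑ c ∈ range (4 ^ i), (pm * F (4 * (z + 4 ^ s * c) + k + em) +
        p0 * F (4 * (z + 4 ^ s * c) + e0) + p1 * F (4 * (z + 4 ^ s * c) - k + e1))) / 4 ^ i := by
    unfold lev
    rw [← mul_div_assoc, ← mul_div_assoc, ← mul_div_assoc, ← add_div, ← add_div,
      Finset.mul_sum, Finset.mul_sum, Finset.mul_sum, ← Finset.sum_add_distrib,
      ← Finset.sum_add_distrib]
    congr 1
    apply Finset.sum_congr rfl
    intro c _
    have h1 : (4 * z + k + em + 4 ^ (s + 1) * (c : ℤ)) = 4 * (z + 4 ^ s * c) + k + em := by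
      rw [pow_succ]; ring
    have h2 : (4 * z + e0 + 4 ^ (s + 1) * (c : ℤ)) = 4 * (z + 4 ^ s * c) + e0 := by
      rw [pow_succ]; ring
    have h3 : (4 * z - k + e1 + 4 ^ (s + 1) * (c : ℤ)) = 4 * (z + 4 ^ s * c) - k + e1 := by
      rw [pow_succ]; ring
    rw [h1, h2, h3]
  rw [h1, h2]
  gcongr with c _
  exact H _

/-- the averaging step on the arithmetic side -/
lemma mean_step {s : ℕ} {k q : ℤ} (hk : k = 4 * q + 1) {h h' : ℤ → ℝ} {β γ : ℝ}
    (hh : ∀ x, h (x + 4 ^ (s + 1)) = h x)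
    (H : ∀ z, (1 / 4 - β) * h (4 * z) + (1 / 4 - γ) * h (4 * z + 1) + 1 / 4 * h (4 * z - k) +
      β * h (4 * z - k + 1) + γ * h (4 * z + k) + 1 / 4 * h (4 * z + k + 1) ≤ h' z) :
    mean (s + 1) h ≤ mean s h' := by
  have hper : ∀ c x : ℤ, (fun x : ℤ => h (4 * x + c)) (x + (4 ^ s : ℕ)) =
      (fun x : ℤ => h (4 * x + c)) x := by
    intro c x
    simp only
    rw [← hh (4 * x + c)]
    congr 1
    push_cast
    rw [pow_succ]
    ring
  have s0 := sum_shift (g := fun x : ℤ => h (4 * x + 0)) (n := 4 ^ s) (hper 0)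
  have s1 := sum_shift (g := fun x : ℤ => h (4 * x + 1)) (n := 4 ^ s) (hper 1)
  have s2 := sum_shift (g := fun x : ℤ => h (4 * x + 2)) (n := 4 ^ s) (hper 2)
  have s3 := sum_shift (g := fun x : ℤ => h (4 * x + 3)) (n := 4 ^ s) (hper 3)
  have e3 : ∑ z ∈ range (4 ^ s), h (4 * z - k) = ∑ z ∈ range (4 ^ s), h (4 * z + 3) := by
    rw [← s3 (-q - 1)]
    apply Finset.sum_congr rfl
    intro z _
    congr 1
    rw [hk]; ring
  have e0 : ∑ z ∈ range (4 ^ s), h (4 * z - k + 1) = ∑ z ∈ range (4 ^ s), h (4 * z + 0) := by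
    rw [← s0 (-q)]
    apply Finset.sum_congr rfl
    intro z _
    congr 1
    rw [hk]; ring
  have e1 : ∑ z ∈ range (4 ^ s), h (4 * z + k) = ∑ z ∈ range (4 ^ s), h (4 * z + 1) := by
    rw [← s1 q]
    apply Finset.sum_congr rfl
    intro z _
    congr 1
    rw [hk]; ring
  have e2 : ∑ z ∈ range (4 ^ s), h (4 * z + k + 1) = ∑ z ∈ range (4 ^ s), h (4 * z + 2) := by
    rw [← s2 q]
    apply Finset.sum_congr rfl
    intro z _
    congr 1
    rw [hk]; ring
  have hsum : ∑ z ∈ range (4 ^ s), ((1 / 4 - β) * h (4 * z) + (1 / 4 - γ) * h (4 * z + 1) +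
      1 / 4 * h (4 * z - k) + β * h (4 * z - k + 1) + γ * h (4 * z + k) +
        1 / 4 * h (4 * z + k + 1)) = (∑ z ∈ range (4 * 4 ^ s), h z) / 4 := by
    rw [sum_four_mul]
    simp only [Finset.sum_add_distrib, ← Finset.mul_sum]
    rw [e0, e1, e2, e3]
    simp only [add_zero]
    ring
  unfold mean
  rw [pow_succ' 4 s, pow_succ' (4 : ℝ) s, ← div_div, ← hsum]
  gcongr with z _
  exact H z

end Pool.Agent.H6.LvdP2
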