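import Pool.Agent.H6.LvdP2.Iterate

/-! The bound `m ≤ |k|^(20 log log |k|)`. -/

namespace Pool.Agent.H6.LvdP2

open Pool.Agent.H98.LvdP

/-- `|k|` lies in the window `(4^t + 4, (11·4^t - 4)/8)` -/
theorem exists_multiplier_window {k : ℤ} (hk : Odd k) {t : ℕ} (ht : 2 ≤ t)
    (hk1 : 4 ^ t + 4 < |k|) (hk2 : 8 * |k| + 4 < 11 * 4 ^ t) {J1 J2 : ℕ}
    (hJ1 : (t : ℝ) * (3 / 4) ^ J1 ≤ 1 / 2) (hJ2 : 2 * (t : ℝ) < (9 / 8) ^ J2) :
    ∃ m : ℤ, IsMultiplier k m ∧ 3 * m ≤ 4 ^ ((J1 + J2) * t + 1) - 1 := by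
  obtain ⟨u, rfl⟩ : ∃ u, t = u + 1 := ⟨t - 1, by omega⟩
  obtain ⟨c, hc⟩ := hk
  rcases Int.emod_two_eq_zero_or_one c with h | h
  · have hk' : k = 4 * (c / 2) + 1 := by omega
    have hr := reach_zero hk' hk1 hk2 hJ1 hJ2
    obtain ⟨m, hm, hb⟩ := hr.multiplier
    refine ⟨m, hm, ?_⟩
    rw [show (J1 + J2) * (u + 1) = J1 * (u + 1) + J2 * (u + 1) by ring]
    exact hb
  · have hk' : -k = 4 * (-(c + 1) / 2) + 1 := by omega
    have hr := reach_zero hk' (by rwa [abs_neg]) (by rwa [abs_neg]) hJ1 hJ2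
    obtain ⟨m, hm, hb⟩ := hr.multiplier
    refine ⟨m, ⟨hm.1, hm.2.1, ?_⟩, ?_⟩
    · have := L_neg hm.2.2
      simpa using this
    · rw [show (J1 + J2) * (u + 1) = J1 * (u + 1) + J2 * (u + 1) by ring]
      exact hb

lemma log_four_thirds : (2 : ℝ) / 7 ≤ Real.log (4 / 3) := by
  have h := Real.le_log_one_add_of_nonneg (show (0 : ℝ) ≤ 1 / 3 by norm_num)
  norm_num at h
  linarith

lemma log_nine_eighths : (2 : ℝ) / 17 ≤ Real.log (9 / 8) := by
  have h := Real.le_log_one_add_of_nonneg (show (0 : ℝ) ≤ 1 / 8 by norm_num)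
  norm_num at h
  linarith

lemma exists_J1 {t : ℕ} (ht : 2 ≤ t) : ∃ J : ℕ, (t : ℝ) * (3 / 4) ^ J ≤ 1 / 2 ∧
    (J : ℝ) ≤ 7 / 2 * Real.log (2 * t) + 1 := by
  have htR : (2 : ℝ) ≤ t := by exact_mod_cast ht
  have hl : 0 ≤ Real.log (2 * t) := Real.log_nonneg (by linarith)
  have hl43 : 0 < Real.log (4 / 3) := by have := log_four_thirds; linarith
  refine ⟨⌈Real.log (2 * t) / Real.log (4 / 3)⌉₊, ?_, ?_⟩
  · have h1 : Real.log (2 * t) / Real.log (4 / 3) ≤ ⌈Real.log (2 * t) / Real.log (4 / 3)⌉₊ :=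
      Nat.le_ceil _
    set J := ⌈Real.log (2 * t) / Real.log (4 / 3)⌉₊
    rw [div_le_iff₀ hl43, ← Real.log_pow] at h1
    have h2 : (2 : ℝ) * t ≤ (4 / 3) ^ J :=
      (Real.log_le_log_iff (by linarith) (by positivity)).1 h1
    have h3 : (0 : ℝ) < (3 / 4) ^ J := by positivity
    have h4 : ((4 : ℝ) / 3) ^ J * (3 / 4) ^ J = 1 := by rw [← mul_pow]; norm_num
    nlinarith
  · have h1 := (Nat.ceil_lt_add_one (div_nonneg hl hl43.le)).le
    refine h1.trans ?_
    have h2 : Real.log (2 * t) / Real.log (4 / 3) ≤ 7 / 2 * Real.log (2 * t) := by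
      rw [div_le_iff₀ hl43]
      have := log_four_thirds
      nlinarith
    linarith

lemma exists_J2 {t : ℕ} (ht : 2 ≤ t) : ∃ J : ℕ, 2 * (t : ℝ) < (9 / 8) ^ J ∧
    (J : ℝ) ≤ 17 / 2 * Real.log (2 * t) + 1 := by
  have htR : (2 : ℝ) ≤ t := by exact_mod_cast ht
  have hl : 0 ≤ Real.log (2 * t) := Real.log_nonneg (by linarith)
  have hl98 : 0 < Real.log (9 / 8) := by have := log_nine_eighths; linarith
  refine ⟨⌊Real.log (2 * t) / Real.log (9 / 8)⌋₊ + 1, ?_, ?_⟩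
  · have h1 := Nat.lt_floor_add_one (Real.log (2 * t) / Real.log (9 / 8))
    set J := ⌊Real.log (2 * t) / Real.log (9 / 8)⌋₊
    rw [div_lt_iff₀ hl98] at h1
    have h1' : Real.log (2 * t) < ((J + 1 : ℕ) : ℝ) * Real.log (9 / 8) := by push_cast; exact h1
    rw [← Real.log_pow] at h1'
    exact (Real.log_lt_log_iff (by linarith) (by positivity)).1 h1'
  · have h1 := Nat.floor_le (div_nonneg hl hl98.le)
    have h2 : Real.log (2 * t) / Real.log (9 / 8) ≤ 17 / 2 * Real.log (2 * t) := by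
      rw [div_le_iff₀ hl98]
      have := log_nine_eighths
      nlinarith
    push_cast
    linarith

theorem main_bound {k : ℤ} (hk : Odd k) {t : ℕ} (hk1 : 4 ^ t + 4 < |k|)
    (hk2 : 8 * |k| + 4 < 11 * 4 ^ t) :
    ∃ m : ℤ, IsMultiplier k m ∧
      (m : ℝ) ≤ |(k : ℝ)| ^ (20 * Real.log (Real.log |(k : ℝ)|)) := by
  have ht : 2 ≤ t := by
    by_contra hlt
    have : t = 0 ∨ t = 1 := by omega
    rcases this with rfl | rfl
    · norm_num at hk1 hk2; omega
    · norm_num at hk1 hk2; omega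
  obtain ⟨J1, hJ1, bJ1⟩ := exists_J1 ht
  obtain ⟨J2, hJ2, bJ2⟩ := exists_J2 ht
  obtain ⟨m, hm, hb⟩ := exists_multiplier_window hk ht hk1 hk2 hJ1 hJ2
  refine ⟨m, hm, ?_⟩
  have htR : (2 : ℝ) ≤ t := by exact_mod_cast ht
  have hm0 : (0 : ℝ) < m := by exact_mod_cast hm.1
  have hm1 : (m : ℝ) ≤ 4 ^ ((J1 + J2) * t + 1) := by
    have : m ≤ 4 ^ ((J1 + J2) * t + 1) := by
      have := hm.1
      linarith
    exact_mod_cast this
  have hkR : (4 : ℝ) ^ t ≤ |(k : ℝ)| := by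
    have h : (4 : ℤ) ^ t ≤ |k| := by linarith
    exact_mod_cast h
  have hk0 : (0 : ℝ) < |(k : ℝ)| := lt_of_lt_of_le (by positivity) hkR
  have l4 : (1386 : ℝ) / 1000 ≤ Real.log 4 := by
    have := Real.log_two_gt_d9
    rw [show (4 : ℝ) = 2 ^ 2 by norm_num, Real.log_pow]
    push_cast
    linarith
  have hlk : t * Real.log 4 ≤ Real.log |(k : ℝ)| := by
    rw [← Real.log_pow]
    exact Real.log_le_log (by positivity) hkR
  have hll : Real.log t + 278 / 1000 ≤ Real.log (Real.log |(k : ℝ)|) := by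
    have h1 : Real.log (t * Real.log 4) ≤ Real.log (Real.log |(k : ℝ)|) :=
      Real.log_le_log (by positivity) hlk
    rw [Real.log_mul (by positivity) (by positivity)] at h1
    have h2 := Real.one_sub_inv_le_log_of_pos (show 0 < Real.log 4 by positivity)
    have h3 : (Real.log 4)⁻¹ ≤ 1000 / 1386 := by
      rw [inv_le_comm₀ (by positivity) (by norm_num)]
      norm_num
      linarith
    norm_num at h3
    linarith
  have hlt : (69 : ℝ) / 100 ≤ Real.log t := by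
    have h1 : Real.log 2 ≤ Real.log t := Real.log_le_log (by norm_num) htR
    have := Real.log_two_gt_d9
    linarith
  have hl2t : Real.log (2 * t) ≤ Real.log t + 694 / 1000 := by
    rw [Real.log_mul (by norm_num) (by positivity)]
    have := Real.log_two_lt_d9
    linarith
  have key : ((((J1 + J2) * t + 1 : ℕ) : ℝ)) * Real.log 4 ≤
      20 * Real.log (Real.log |(k : ℝ)|) * Real.log |(k : ℝ)| := by
    have h1 : (((J1 + J2) * t + 1 : ℕ) : ℝ) ≤ 20 * Real.log (Real.log |(k : ℝ)|) * t := by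
      push_cast
      have h2 : ((J1 : ℝ) + J2) * t + 1 ≤ (12 * Real.log (2 * t) + 2 + 1 / 2) * t := by
        have : ((J1 : ℝ) + J2) * t ≤ (12 * Real.log (2 * t) + 2) * t := by
          apply mul_le_mul_of_nonneg_right _ (by linarith)
          linarith
        linarith
      refine h2.trans (mul_le_mul_of_nonneg_right ?_ (by linarith))
      linarith
    calc ((((J1 + J2) * t + 1 : ℕ) : ℝ)) * Real.log 4
        ≤ 20 * Real.log (Real.log |(k : ℝ)|) * t * Real.log 4 :=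
          mul_le_mul_of_nonneg_right h1 (by positivity)
      _ = 20 * Real.log (Real.log |(k : ℝ)|) * (t * Real.log 4) := by ring
      _ ≤ 20 * Real.log (Real.log |(k : ℝ)|) * Real.log |(k : ℝ)| := by
          apply mul_le_mul_of_nonneg_left hlk
          linarith
  calc (m : ℝ) ≤ 4 ^ ((J1 + J2) * t + 1) := hm1
    _ = Real.exp ((((J1 + J2) * t + 1 : ℕ) : ℝ) * Real.log 4) := by
        rw [← Real.log_pow, Real.exp_log (by positivity)]
    _ ≤ Real.exp (20 * Real.log (Real.log |(k : ℝ)|) * Real.log |(k : ℝ)|) :=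
        Real.exp_le_exp.2 key
    _ = |(k : ℝ)| ^ (20 * Real.log (Real.log |(k : ℝ)|)) := by
        rw [Real.rpow_def_of_pos hk0, mul_comm]

end Pool.Agent.H6.LvdP2
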