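import Pool.Agent.H6.LvdP2.Norm

/-! Scalar inequalities for the operator `(x + y + z + max(x,y,z))/4`. -/

namespace Pool.Agent.H6.LvdP2

/-- the three probability vectors -/
def P1 : Set (ℝ × ℝ × ℝ) :=
  {(1 / 2, 1 / 4, 1 / 4), (1 / 4, 1 / 2, 1 / 4), (1 / 4, 1 / 4, 1 / 2)}

lemma P1_sum : ∀ p ∈ P1, p.1 + p.2.1 + p.2.2 = 1 := by
  intro p hp
  simp only [P1, Set.mem_insert_iff, Set.mem_singleton_iff] at hp
  rcases hp with rfl | rfl | rfl <;> norm_num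

lemma rpow_le_mul {x M a : ℝ} (hx : 0 ≤ x) (hxM : x ≤ M) (ha : 1 < a) :
    x ^ a ≤ x * M ^ (a - 1) := by
  rcases hx.eq_or_lt with rfl | hx0
  · rw [Real.zero_rpow (by linarith)]; simp
  · have h : x ^ a = x * x ^ (a - 1) := by
      rw [← Real.rpow_one_add' hx (by linarith)]; congr 1; ring
    rw [h]
    exact mul_le_mul_of_nonneg_left (Real.rpow_le_rpow hx hxM (by linarith)) hx

lemma mul_le_rpow {x M a : ℝ} (hx : 0 ≤ x) (hxM : x ≤ M) (ha0 : 0 < a) (ha : a < 1) :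
    x * M ^ (a - 1) ≤ x ^ a := by
  rcases hx.eq_or_lt with rfl | hx0
  · rw [Real.zero_rpow (by linarith)]; simp
  · have h : x ^ a = x * x ^ (a - 1) := by
      rw [← Real.rpow_one_add' hx (by linarith)]; congr 1; ring
    rw [h]
    exact mul_le_mul_of_nonneg_left
      (Real.rpow_le_rpow_of_nonpos hx0 hxM (by linarith)) hx

lemma scalar_up_aux {x y z M w : ℝ} (hx : 0 ≤ x) (hy : 0 ≤ y) (hz : 0 ≤ z) (hxM : x ≤ M)
    (hyM : y ≤ M) (hzM : z ≤ M) (hw : (x + y + z + M) / 4 ≤ w) :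
    (x ^ (4 / 3 : ℝ) + y ^ (4 / 3 : ℝ) + z ^ (4 / 3 : ℝ)) / 3 ≤ w ^ (4 / 3 : ℝ) := by
  have hM : 0 ≤ M := hx.trans hxM
  rcases hM.eq_or_lt with h0 | hM0
  · subst h0
    have hx0 : x = 0 := le_antisymm hxM hx
    have hy0 : y = 0 := le_antisymm hyM hy
    have hz0 : z = 0 := le_antisymm hzM hz
    subst hx0; subst hy0; subst hz0
    rw [Real.zero_rpow (by norm_num)]
    have : 0 ≤ w := by linarith
    have := Real.rpow_nonneg this (4 / 3 : ℝ)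
    linarith
  · have h1 := rpow_le_mul hx hxM (show (1 : ℝ) < 4 / 3 by norm_num)
    have h2 := rpow_le_mul hy hyM (show (1 : ℝ) < 4 / 3 by norm_num)
    have h3 := rpow_le_mul hz hzM (show (1 : ℝ) < 4 / 3 by norm_num)
    set σ := x + y + z with hσ
    have hσ0 : 0 ≤ σ := by positivity
    have hb := one_add_mul_self_le_rpow_one_add (s := (σ + M) / (4 * M) - 1) (by
      have : 0 ≤ (σ + M) / (4 * M) := by positivity
      linarith) (p := (4 / 3 : ℝ)) (by norm_num)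
    have e1 : 1 + ((σ + M) / (4 * M) - 1) = (σ + M) / (4 * M) := by ring
    have e2 : 1 + 4 / 3 * ((σ + M) / (4 * M) - 1) = σ / (3 * M) := by field_simp; ring
    rw [e1, e2] at hb
    have hMpow : M ^ (4 / 3 : ℝ) = M * M ^ (4 / 3 - 1 : ℝ) := by
      rw [← Real.rpow_one_add' hM (by norm_num)]; norm_num
    have hMp : 0 < M ^ (4 / 3 : ℝ) := Real.rpow_pos_of_pos hM0 _
    have h4 : ((σ + M) / 4) ^ (4 / 3 : ℝ) = M ^ (4 / 3 : ℝ) * ((σ + M) / (4 * M)) ^ (4 / 3 : ℝ) := by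
      rw [← Real.mul_rpow hM (by positivity)]
      congr 1
      field_simp
    have h5 : ((σ + M) / 4) ^ (4 / 3 : ℝ) ≤ w ^ (4 / 3 : ℝ) :=
      Real.rpow_le_rpow (by positivity) hw (by norm_num)
    have h6 : σ * M ^ (4 / 3 - 1 : ℝ) / 3 = M ^ (4 / 3 : ℝ) * (σ / (3 * M)) := by
      rw [hMpow]; field_simp
    calc (x ^ (4 / 3 : ℝ) + y ^ (4 / 3 : ℝ) + z ^ (4 / 3 : ℝ)) / 3
        ≤ σ * M ^ (4 / 3 - 1 : ℝ) / 3 := by rw [hσ]; linarith [h1, h2, h3]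
      _ = M ^ (4 / 3 : ℝ) * (σ / (3 * M)) := h6
      _ ≤ M ^ (4 / 3 : ℝ) * ((σ + M) / (4 * M)) ^ (4 / 3 : ℝ) :=
          mul_le_mul_of_nonneg_left hb hMp.le
      _ = ((σ + M) / 4) ^ (4 / 3 : ℝ) := h4.symm
      _ ≤ w ^ (4 / 3 : ℝ) := h5

lemma scalar_down_aux {x y z X w : ℝ} (hx : 0 ≤ x) (hy : 0 ≤ y) (hz : 0 ≤ z) (hw : 0 ≤ w)
    (hxX : x ≤ X) (hyX : y ≤ X) (hzX : z ≤ X) (h : w ≤ (3 * (x + y + z) - X) / 8) :
    w ^ (8 / 9 : ℝ) ≤ (x ^ (8 / 9 : ℝ) + y ^ (8 / 9 : ℝ) + z ^ (8 / 9 : ℝ)) / 3 := by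
  have hX : 0 ≤ X := hx.trans hxX
  rcases hX.eq_or_lt with h0 | hX0
  · subst h0
    have hx0 : x = 0 := le_antisymm hxX hx
    have hy0 : y = 0 := le_antisymm hyX hy
    have hz0 : z = 0 := le_antisymm hzX hz
    subst hx0; subst hy0; subst hz0
    have hw0 : w = 0 := by linarith
    subst hw0
    simp
  · have h1 := mul_le_rpow hx hxX (show (0 : ℝ) < 8 / 9 by norm_num) (by norm_num)
    have h2 := mul_le_rpow hy hyX (show (0 : ℝ) < 8 / 9 by norm_num) (by norm_num)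
    have h3 := mul_le_rpow hz hzX (show (0 : ℝ) < 8 / 9 by norm_num) (by norm_num)
    set σ := x + y + z with hσ
    have hσ0 : 0 ≤ σ := by positivity
    set v := σ / (3 * X) with hv
    have hv0 : 0 ≤ v := by positivity
    have hb := one_add_mul_self_le_rpow_one_add (s := v - 1) (by linarith) (p := (9 / 8 : ℝ))
      (by norm_num)
    have e1 : 1 + (v - 1) = v := by ring
    rw [e1] at hb
    have hwX : w ≤ X * v ^ (9 / 8 : ℝ) := by
      have : (3 * σ - X) / 8 = X * (1 + 9 / 8 * (v - 1)) := by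
        rw [hv]; field_simp; ring
      calc w ≤ (3 * σ - X) / 8 := h
        _ = X * (1 + 9 / 8 * (v - 1)) := this
        _ ≤ X * v ^ (9 / 8 : ℝ) := mul_le_mul_of_nonneg_left hb hX
    have hpow : (X * v ^ (9 / 8 : ℝ)) ^ (8 / 9 : ℝ) = X ^ (8 / 9 : ℝ) * v := by
      rw [Real.mul_rpow hX (Real.rpow_nonneg hv0 _), ← Real.rpow_mul hv0]
      norm_num
    have hXpow : X ^ (8 / 9 : ℝ) = X * X ^ (8 / 9 - 1 : ℝ) := by
      rw [← Real.rpow_one_add' hX (by norm_num)]; norm_num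
    have e3 : X ^ (8 / 9 : ℝ) * v = σ * X ^ (8 / 9 - 1 : ℝ) / 3 := by
      rw [hXpow, hv]; field_simp
    calc w ^ (8 / 9 : ℝ) ≤ (X * v ^ (9 / 8 : ℝ)) ^ (8 / 9 : ℝ) :=
          Real.rpow_le_rpow hw hwX (by norm_num)
      _ = X ^ (8 / 9 : ℝ) * v := hpow
      _ = σ * X ^ (8 / 9 - 1 : ℝ) / 3 := e3
      _ ≤ _ := by rw [hσ]; linarith [h1, h2, h3]

theorem P1_up : ScalarUp P1 (1 / 12) (1 / 12) (4 / 3) := by
  intro xm x0 x1 y hm h0 h1 H
  have a1 := H (1 / 2, 1 / 4, 1 / 4) (by simp [P1])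
  have a2 := H (1 / 4, 1 / 2, 1 / 4) (by simp [P1])
  have a3 := H (1 / 4, 1 / 4, 1 / 2) (by simp [P1])
  simp only at a1 a2 a3
  have key : (xm ^ (4 / 3 : ℝ) + x0 ^ (4 / 3 : ℝ) + x1 ^ (4 / 3 : ℝ)) / 3 ≤ y ^ (4 / 3 : ℝ) := by
    refine scalar_up_aux (M := max xm (max x0 x1)) hm h0 h1 (le_max_left _ _)
      ((le_max_left _ _).trans (le_max_right _ _)) ((le_max_right _ _).trans (le_max_right _ _)) ?_
    rcases max_choice xm (max x0 x1) with h | h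
    · rw [h]; linarith
    · rw [h]
      rcases max_choice x0 x1 with h' | h' <;> rw [h'] <;> linarith
  linarith [key]

theorem P1_down : ScalarDown P1 (1 / 12) (1 / 12) (8 / 9) := by
  intro xm x0 x1 y hm h0 h1 hy H
  have a1 := H (1 / 2, 1 / 4, 1 / 4) (by simp [P1])
  have a2 := H (1 / 4, 1 / 2, 1 / 4) (by simp [P1])
  have a3 := H (1 / 4, 1 / 4, 1 / 2) (by simp [P1])
  simp only at a1 a2 a3
  have key : y ^ (8 / 9 : ℝ) ≤ (xm ^ (8 / 9 : ℝ) + x0 ^ (8 / 9 : ℝ) + x1 ^ (8 / 9 : ℝ)) / 3 := by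
    refine scalar_down_aux (X := max xm (max x0 x1)) hm h0 h1 hy (le_max_left _ _)
      ((le_max_left _ _).trans (le_max_right _ _)) ((le_max_right _ _).trans (le_max_right _ _)) ?_
    rcases max_choice xm (max x0 x1) with h | h
    · rw [h]; linarith
    · rw [h]
      rcases max_choice x0 x1 with h' | h' <;> rw [h'] <;> linarith
  linarith [key]

end Pool.Agent.H6.LvdP2
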