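import Pool.Agent.H98.LvdP.Basic
import Pool.Agent.H6.LvdP2.Scalar

/-! The window graph: states `w`, moves `4 w' = w + k a + 4^t d - e`. -/

namespace Pool.Agent.H6.LvdP2

open Pool.Agent.H98.LvdP

/-- integers with `n` base-4 digits, all in `{0,1}` -/
def DigB : ℕ → ℤ → Prop
  | 0, n => n = 0
  | t + 1, n => ∃ ε m : ℤ, (ε = 0 ∨ ε = 1) ∧ DigB t m ∧ n = ε + 4 * m

lemma DigB_append {s t : ℕ} {a b : ℤ} (ha : DigB s a) (hb : DigB t b) :
    DigB (s + t) (a + 4 ^ s * b) := by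
  induction s generalizing a with
  | zero =>
    simp only [DigB] at ha
    subst ha
    simpa using hb
  | succ s ih =>
    obtain ⟨ε, m, hε, hm, rfl⟩ := ha
    have := ih hm
    rw [show s + 1 + t = (s + t) + 1 by ring]
    exact ⟨ε, m + 4 ^ s * b, hε, this, by ring⟩

lemma DigB_zero (t : ℕ) : DigB t 0 := by
  induction t with
  | zero => simp [DigB]
  | succ t ih => exact ⟨0, 0, by simp, ih, by simp⟩

lemma DigB_one {ε : ℤ} (h : ε = 0 ∨ ε = 1) : DigB 1 ε := ⟨ε, 0, h, by simp [DigB], by simp⟩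

lemma Dig_one {ε : ℤ} (h : ε = -1 ∨ ε = 0 ∨ ε = 1) : Dig 1 ε := ⟨ε, 0, h, by simp [Dig], by simp⟩

lemma DigB_mono {s t : ℕ} (hst : s ≤ t) {n : ℤ} (h : DigB s n) : DigB t n := by
  obtain ⟨r, rfl⟩ := Nat.exists_eq_add_of_le hst
  simpa using DigB_append h (DigB_zero r)

lemma DigB_sub {s : ℕ} {x y : ℤ} (hx : DigB s x) (hy : DigB s y) : Dig s (x - y) := by
  induction s generalizing x y with
  | zero => simp only [DigB, Dig] at *; omega
  | succ s ih =>
    obtain ⟨ε, m, hε, hm, rfl⟩ := hx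
    obtain ⟨ε', m', hε', hm', rfl⟩ := hy
    exact ⟨ε - ε', m - m', by omega, ih hm hm', by ring⟩

/-- one move of the window graph -/
def Move (k : ℤ) (t : ℕ) (w w' : ℤ) : Prop :=
  ∃ a d e : ℤ, (a = -1 ∨ a = 0 ∨ a = 1) ∧ (d = 0 ∨ d = 1) ∧ (e = 0 ∨ e = 1) ∧
    4 * w' = w + k * a + 4 ^ t * d - e

/-- states reached after `n` moves, starting from `(k-1)/4` -/
def Reach (k : ℤ) (t : ℕ) : ℕ → ℤ → Prop
  | 0, w => 4 * w = k - 1
  | n + 1, w' => ∃ w, Reach k t n w ∧ Move k t w w'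

lemma Reach.digits {k : ℤ} {t : ℕ} {n : ℕ} {w : ℤ} (h : Reach k t n w) :
    ∃ A D E : ℤ, Dig (n + 1) A ∧ A % 4 = 1 ∧ DigB (n + 1) D ∧ DigB (n + 1) E ∧
      4 ^ (n + 1) * w = k * A + 4 ^ t * D - E := by
  induction n generalizing w with
  | zero =>
    simp only [Reach] at h
    refine ⟨1, 0, 1, Dig_one (by simp), by norm_num, DigB_zero _, DigB_one (by simp), ?_⟩
    simp only [zero_add, pow_one]
    omega
  | succ n ih =>
    obtain ⟨v, hv, a, d, e, ha, hd, he, hw⟩ := h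
    obtain ⟨A, D, E, hA, hA4, hD, hE, h⟩ := ih hv
    refine ⟨A + 4 ^ (n + 1) * a, D + 4 ^ (n + 1) * d, E + 4 ^ (n + 1) * e,
      Dig_append hA (Dig_one ha), ?_, DigB_append hD (DigB_one hd), DigB_append hE (DigB_one he),
      ?_⟩
    · have : (4 : ℤ) ∣ 4 ^ (n + 1) * a := Dvd.dvd.mul_right (dvd_pow_self 4 (by omega)) a
      omega
    · calc (4 : ℤ) ^ (n + 1 + 1) * w = 4 ^ (n + 1) * (4 * w) := by ring
        _ = 4 ^ (n + 1) * v + 4 ^ (n + 1) * (k * a + 4 ^ t * d - e) := by rw [hw]; ring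
        _ = _ := by rw [h]; ring

lemma Reach.bounds {k : ℤ} {t : ℕ} {n : ℕ} {w : ℤ} (h : Reach k t n w) :
    -(|k| + 1) ≤ 3 * w ∧ 3 * w ≤ |k| + 4 ^ t := by
  have hN : (1 : ℤ) ≤ 4 ^ t := one_le_pow₀ (by norm_num)
  induction n generalizing w with
  | zero =>
    simp only [Reach] at h
    have h1 := le_abs_self k
    have h2 := neg_abs_le k
    have h3 := abs_nonneg k
    constructor <;> linarith
  | succ n ih =>
    obtain ⟨v, hv, a, d, e, ha, hd, he, hw⟩ := h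
    obtain ⟨h1, h2⟩ := ih hv
    have h3 := le_abs_self k
    have h4 := neg_abs_le k
    have h5 : |k * a| ≤ |k| := by
      rw [abs_mul]
      have : |a| ≤ 1 := by rcases ha with rfl | rfl | rfl <;> simp
      nlinarith [abs_nonneg k]
    have h6 := le_abs_self (k * a)
    have h7 := neg_abs_le (k * a)
    have h8 : 0 ≤ 4 ^ t * d ∧ 4 ^ t * d ≤ 4 ^ t := by
      rcases hd with rfl | rfl
      · simp
      · simp
    have h9 : 0 ≤ e ∧ e ≤ 1 := by rcases he with rfl | rfl <;> simp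
    constructor <;> linarith [h8.1, h8.2, h9.1, h9.2]

/-- a return to `0` gives a multiplier -/
lemma Reach.multiplier {k : ℤ} {t : ℕ} {n : ℕ} (h : Reach k t n 0) :
    ∃ m : ℤ, IsMultiplier k m ∧ 3 * m ≤ 4 ^ (n + 1) - 1 := by
  obtain ⟨A, D, E, hA, hA4, hD, hE, heq⟩ := h.digits
  have hkA : k * A = E - 4 ^ t * D := by linarith
  have hX : DigB (t + (n + 1)) (0 + 4 ^ t * D) := DigB_append (DigB_zero t) hD
  have hE' : DigB (t + (n + 1)) E := DigB_mono (by omega) hE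
  have hB : Dig (t + (n + 1)) (k * A) := by
    rw [hkA]
    have := DigB_sub hE' hX
    simpa using this
  have hkL : k * A ∈ L := (mem_L_iff _).2 ⟨_, hB⟩
  have hAL : A ∈ L := (mem_L_iff _).2 ⟨_, hA⟩
  have hb := Dig_bound hA
  have hne : A ≠ 0 := by rintro rfl; simp at hA4
  rcases lt_or_gt_of_ne hne with hneg | hpos
  · refine ⟨-A, ⟨by omega, L_neg hAL, ?_⟩, by linarith [hb.2]⟩
    have := L_neg hkL
    simpa using this
  · exact ⟨A, ⟨hpos, hAL, hkL⟩, hb.1⟩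

/-- indicator of the residue classes mod `4^t` met by the reached states -/
noncomputable def ind (k : ℤ) (t n : ℕ) (z : ℤ) : ℝ :=
  open Classical in if ∃ w, Reach k t n w ∧ (4 : ℤ) ^ t ∣ w - z then 1 else 0

lemma ind_nonneg (k : ℤ) (t n : ℕ) (z : ℤ) : 0 ≤ ind k t n z := by
  unfold ind; split_ifs <;> norm_num

lemma ind_le_one (k : ℤ) (t n : ℕ) (z : ℤ) : ind k t n z ≤ 1 := by
  unfold ind; split_ifs <;> norm_num

lemma ind_eq (k : ℤ) (t n : ℕ) (z : ℤ) : ind k t n z = 0 ∨ ind k t n z = 1 := by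
  unfold ind; split_ifs <;> simp

lemma ind_eq_one {k : ℤ} {t n : ℕ} {z : ℤ} : ind k t n z = 1 ↔
    ∃ w, Reach k t n w ∧ (4 : ℤ) ^ t ∣ w - z := by
  unfold ind; split_ifs with h <;> simp [h]

lemma ind_congr (k : ℤ) (t n : ℕ) {z z' : ℤ} (h : (4 : ℤ) ^ t ∣ z - z') :
    ind k t n z = ind k t n z' := by
  have : (∃ w, Reach k t n w ∧ (4 : ℤ) ^ t ∣ w - z) ↔
      (∃ w, Reach k t n w ∧ (4 : ℤ) ^ t ∣ w - z') := by
    constructor
    · rintro ⟨w, hw, hd⟩
      exact ⟨w, hw, by simpa using dvd_add hd h⟩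
    · rintro ⟨w, hw, hd⟩
      refine ⟨w, hw, ?_⟩
      have := dvd_sub hd h
      simpa using this
  unfold ind
  by_cases h1 : ∃ w, Reach k t n w ∧ (4 : ℤ) ^ t ∣ w - z
  · rw [if_pos h1, if_pos (this.1 h1)]
  · rw [if_neg h1, if_neg (fun h2 => h1 (this.2 h2))]

end Pool.Agent.H6.LvdP2
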