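import Pool.Agent.H6.LvdP2.OneStep

/-! Iteration: all residue classes are reached after `O(t log t)` moves. -/

namespace Pool.Agent.H6.LvdP2

open Pool.Agent.H98.LvdP Finset

/-- density of the reached residue classes -/
noncomputable def dens (k : ℤ) (t n : ℕ) : ℝ := mean t (ind k t n)

lemma dens_nonneg (k : ℤ) (t n : ℕ) : 0 ≤ dens k t n :=
  div_nonneg (Finset.sum_nonneg fun _ _ => ind_nonneg _ _ _ _) (by positivity)

lemma dens_le_one (k : ℤ) (t n : ℕ) : dens k t n ≤ 1 := by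
  unfold dens mean
  rw [div_le_one (by positivity)]
  calc ∑ z ∈ range (4 ^ t), ind k t n z ≤ ∑ z ∈ range (4 ^ t), (1 : ℝ) :=
        Finset.sum_le_sum fun _ _ => ind_le_one _ _ _ _
    _ = 4 ^ t := by simp

lemma dens_start {k q : ℤ} (hk : k = 4 * q + 1) (t : ℕ) : (1 : ℝ) / 4 ^ t ≤ dens k t 0 := by
  have hN : (0 : ℤ) < 4 ^ t := by positivity
  obtain ⟨z, hz⟩ : ∃ z : ℕ, (z : ℤ) = q % 4 ^ t := ⟨(q % 4 ^ t).toNat, by
    rw [Int.toNat_of_nonneg (Int.emod_nonneg _ hN.ne')]⟩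
  have hzlt : z < 4 ^ t := by
    have := Int.emod_lt_of_pos q hN
    rw [← hz] at this
    exact_mod_cast this
  have h1 : ind k t 0 z = 1 := by
    refine ind_eq_one.2 ⟨q, by simp only [Reach]; omega, ?_⟩
    rw [hz]
    exact Int.dvd_self_sub_emod
  unfold dens mean
  gcongr
  rw [← h1]
  exact Finset.single_le_sum (f := fun z : ℕ => ind k t 0 z) (fun _ _ => ind_nonneg _ _ _ _)
    (mem_range.2 hzlt)

lemma dens_full {k : ℤ} {t n : ℕ} (h : 1 - 1 / 4 ^ t < dens k t n) :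
    ∃ w, Reach k t n w ∧ (4 : ℤ) ^ t ∣ w := by
  by_contra hcon
  have h0 : ind k t n 0 = 0 := by
    rcases ind_eq k t n 0 with h | h
    · exact h
    · obtain ⟨w, hw, hd⟩ := ind_eq_one.1 h
      exact (hcon ⟨w, hw, by simpa using hd⟩).elim
  have h1 : dens k t n ≤ 1 - 1 / 4 ^ t := by
    unfold dens mean
    have hN : (0 : ℝ) < 4 ^ t := by positivity
    rw [div_le_iff₀ hN, sub_mul, one_div, inv_mul_cancel₀ hN.ne', one_mul]
    have hpos : 0 < 4 ^ t := by positivity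
    obtain ⟨N, hN'⟩ : ∃ N, 4 ^ t = N + 1 := ⟨4 ^ t - 1, by omega⟩
    have hNR : (4 : ℝ) ^ t = N + 1 := by exact_mod_cast hN'
    rw [hNR, hN', Finset.sum_range_succ']
    simp only [Nat.cast_zero, h0, add_zero, add_sub_cancel_right]
    calc ∑ i ∈ range N, ind k t n ((i + 1 : ℕ) : ℤ) ≤ ∑ i ∈ range N, (1 : ℝ) :=
          Finset.sum_le_sum fun _ _ => ind_le_one _ _ _ _
      _ = N := by simp
  linarith

lemma dens_up {k q : ℤ} (hk : k = 4 * q + 1) {u : ℕ} (hk1 : 4 ^ (u + 1) + 4 < |k|)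
    (hk2 : 8 * |k| + 4 < 11 * 4 ^ (u + 1)) (n : ℕ) :
    dens k (u + 1) n ^ (3 / 4 : ℝ) ≤ dens k (u + 1) (n + (u + 1)) := by
  have h := block_up P1_up (by norm_num) (by norm_num) (by norm_num) (by norm_num) (by norm_num)
    hk (chain hk1 hk2) n
  have e : (fun z => ind k (u + 1) n z ^ (4 / 3 : ℝ)) = ind k (u + 1) n := by
    funext z
    rcases ind_eq k (u + 1) n z with h | h <;> rw [h]
    · rw [Real.zero_rpow (by norm_num)]
    · rw [Real.one_rpow]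
  rw [e] at h
  have h' : dens k (u + 1) n ≤ dens k (u + 1) (n + (u + 1)) ^ (4 / 3 : ℝ) := h
  have h0 := dens_nonneg k (u + 1) (n + (u + 1))
  calc dens k (u + 1) n ^ (3 / 4 : ℝ)
      ≤ (dens k (u + 1) (n + (u + 1)) ^ (4 / 3 : ℝ)) ^ (3 / 4 : ℝ) :=
        Real.rpow_le_rpow (dens_nonneg _ _ _) h' (by norm_num)
    _ = dens k (u + 1) (n + (u + 1)) := by
        rw [← Real.rpow_mul h0]; norm_num

lemma dens_down {k q : ℤ} (hk : k = 4 * q + 1) {u : ℕ} (hk1 : 4 ^ (u + 1) + 4 < |k|)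
    (hk2 : 8 * |k| + 4 < 11 * 4 ^ (u + 1)) (n : ℕ) :
    1 - dens k (u + 1) (n + (u + 1)) ≤ (1 - dens k (u + 1) n) ^ (9 / 8 : ℝ) := by
  have h := block_down P1_sum P1_down (by norm_num) (by norm_num) (by norm_num) (by norm_num)
    (by norm_num) hk (chain hk1 hk2) n
  have e : (fun z => (1 - ind k (u + 1) n z) ^ (8 / 9 : ℝ)) = fun z => 1 - ind k (u + 1) n z := by
    funext z
    rcases ind_eq k (u + 1) n z with h | h <;> rw [h]
    · rw [sub_zero, Real.one_rpow]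
    · rw [sub_self, Real.zero_rpow (by norm_num)]
  rw [e] at h
  have e2 : mean (u + 1) (fun z => 1 - ind k (u + 1) n z) = 1 - dens k (u + 1) n := by
    unfold dens mean
    rw [Finset.sum_sub_distrib, sub_div]
    congr 1
    simp
  rw [e2] at h
  have h' : (1 - dens k (u + 1) (n + (u + 1))) ^ (8 / 9 : ℝ) ≤ 1 - dens k (u + 1) n := h
  have h0 : 0 ≤ 1 - dens k (u + 1) (n + (u + 1)) := by
    have := dens_le_one k (u + 1) (n + (u + 1)); linarith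
  calc 1 - dens k (u + 1) (n + (u + 1))
      = ((1 - dens k (u + 1) (n + (u + 1))) ^ (8 / 9 : ℝ)) ^ (9 / 8 : ℝ) := by
        rw [← Real.rpow_mul h0]; norm_num
    _ ≤ (1 - dens k (u + 1) n) ^ (9 / 8 : ℝ) :=
        Real.rpow_le_rpow (Real.rpow_nonneg h0 _) h' (by norm_num)

lemma dens_up_iter {k q : ℤ} (hk : k = 4 * q + 1) {u : ℕ} (hk1 : 4 ^ (u + 1) + 4 < |k|)
    (hk2 : 8 * |k| + 4 < 11 * 4 ^ (u + 1)) (j : ℕ) :
    (4 : ℝ) ^ (-((u + 1 : ℕ) : ℝ) * (3 / 4) ^ j) ≤ dens k (u + 1) (j * (u + 1)) := by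
  induction j with
  | zero =>
    have := dens_start hk (u + 1)
    simp only [pow_zero, mul_one, zero_mul]
    rw [Real.rpow_neg (by norm_num), Real.rpow_natCast]
    simpa using this
  | succ j ih =>
    have h := dens_up hk hk1 hk2 (j * (u + 1))
    have e : j * (u + 1) + (u + 1) = (j + 1) * (u + 1) := by ring
    rw [e] at h
    refine le_trans ?_ h
    calc (4 : ℝ) ^ (-((u + 1 : ℕ) : ℝ) * (3 / 4) ^ (j + 1))
        = ((4 : ℝ) ^ (-((u + 1 : ℕ) : ℝ) * (3 / 4) ^ j)) ^ (3 / 4 : ℝ) := by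
          rw [← Real.rpow_mul (by norm_num), pow_succ]; ring_nf
      _ ≤ dens k (u + 1) (j * (u + 1)) ^ (3 / 4 : ℝ) :=
          Real.rpow_le_rpow (Real.rpow_nonneg (by norm_num) _) ih (by norm_num)

lemma dens_down_iter {k q : ℤ} (hk : k = 4 * q + 1) {u : ℕ} (hk1 : 4 ^ (u + 1) + 4 < |k|)
    (hk2 : 8 * |k| + 4 < 11 * 4 ^ (u + 1)) {n : ℕ} (hn : 1 / 2 ≤ dens k (u + 1) n) (j : ℕ) :
    1 - dens k (u + 1) (n + j * (u + 1)) ≤ (1 / 2 : ℝ) ^ ((9 / 8 : ℝ) ^ j) := by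
  induction j with
  | zero => simp; linarith
  | succ j ih =>
    have h := dens_down hk hk1 hk2 (n + j * (u + 1))
    have e : n + j * (u + 1) + (u + 1) = n + (j + 1) * (u + 1) := by ring
    rw [e] at h
    refine h.trans ?_
    have h0 : 0 ≤ 1 - dens k (u + 1) (n + j * (u + 1)) := by
      have := dens_le_one k (u + 1) (n + j * (u + 1)); linarith
    calc (1 - dens k (u + 1) (n + j * (u + 1))) ^ (9 / 8 : ℝ)
        ≤ ((1 / 2 : ℝ) ^ ((9 / 8 : ℝ) ^ j)) ^ (9 / 8 : ℝ) :=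
          Real.rpow_le_rpow h0 ih (by norm_num)
      _ = (1 / 2 : ℝ) ^ ((9 / 8 : ℝ) ^ (j + 1)) := by
          rw [← Real.rpow_mul (by norm_num), pow_succ]

theorem reach_zero {k q : ℤ} (hk : k = 4 * q + 1) {u : ℕ} (hk1 : 4 ^ (u + 1) + 4 < |k|)
    (hk2 : 8 * |k| + 4 < 11 * 4 ^ (u + 1)) {J1 J2 : ℕ}
    (hJ1 : ((u + 1 : ℕ) : ℝ) * (3 / 4) ^ J1 ≤ 1 / 2)
    (hJ2 : 2 * ((u + 1 : ℕ) : ℝ) < (9 / 8) ^ J2) :
    Reach k (u + 1) (J1 * (u + 1) + J2 * (u + 1)) 0 := by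
  have h1 : 1 / 2 ≤ dens k (u + 1) (J1 * (u + 1)) := by
    refine le_trans ?_ (dens_up_iter hk hk1 hk2 J1)
    calc (1 / 2 : ℝ) = (4 : ℝ) ^ (-(1 / 2) : ℝ) := by
          rw [show (4 : ℝ) = 2 ^ (2 : ℝ) by norm_num, ← Real.rpow_mul (by norm_num)]
          norm_num
      _ ≤ (4 : ℝ) ^ (-((u + 1 : ℕ) : ℝ) * (3 / 4) ^ J1) :=
          Real.rpow_le_rpow_of_exponent_le (by norm_num) (by linarith)
  have h2 := dens_down_iter hk hk1 hk2 h1 J2
  have h3 : (1 / 2 : ℝ) ^ ((9 / 8 : ℝ) ^ J2) < 1 / 4 ^ (u + 1) := by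
    calc (1 / 2 : ℝ) ^ ((9 / 8 : ℝ) ^ J2) < (1 / 2 : ℝ) ^ (2 * ((u + 1 : ℕ) : ℝ)) :=
          Real.rpow_lt_rpow_of_exponent_gt (by norm_num) (by norm_num) hJ2
      _ = 1 / 4 ^ (u + 1) := by
          rw [Real.rpow_mul (by norm_num), Real.rpow_natCast,
            show ((1 / 2 : ℝ) ^ (2 : ℝ)) = 1 / 4 by norm_num, one_div, inv_pow, one_div]
  obtain ⟨w, hw, c, hc⟩ := dens_full (k := k) (t := u + 1) (n := J1 * (u + 1) + J2 * (u + 1))
    (by linarith)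
  obtain ⟨b1, b2⟩ := hw.bounds
  have hN : (0 : ℤ) < 4 ^ (u + 1) := by positivity
  have hc0 : c = 0 := by
    by_contra hne
    rcases lt_or_gt_of_ne hne with h | h
    · have : w ≤ -4 ^ (u + 1) := by rw [hc]; nlinarith
      linarith
    · have : 4 ^ (u + 1) ≤ w := by rw [hc]; nlinarith
      linarith
  rw [hc0, mul_zero] at hc
  rwa [hc] at hw

end Pool.Agent.H6.LvdP2
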