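import Pool.Agent.H6.LvdP2.Avg

/-! Power means along one block of `t` steps. -/

namespace Pool.Agent.H6.LvdP2

open Finset

/-- `y ≥ p·x` for all `p ∈ P` forces `y^r ≥ Σ q_a x_a^r`, `q = (1/4+γ, 1/2-β-γ, 1/4+β)` -/
def ScalarUp (P : Set (ℝ × ℝ × ℝ)) (β γ r : ℝ) : Prop :=
  ∀ xm x0 x1 y : ℝ, 0 ≤ xm → 0 ≤ x0 → 0 ≤ x1 →
    (∀ p ∈ P, p.1 * xm + p.2.1 * x0 + p.2.2 * x1 ≤ y) →
    (1 / 4 + γ) * xm ^ r + (1 / 2 - β - γ) * x0 ^ r + (1 / 4 + β) * x1 ^ r ≤ y ^ r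

/-- `0 ≤ y ≤ p·x` for all `p ∈ P` forces `y^ρ ≤ Σ q_a x_a^ρ` -/
def ScalarDown (P : Set (ℝ × ℝ × ℝ)) (β γ ρ : ℝ) : Prop :=
  ∀ xm x0 x1 y : ℝ, 0 ≤ xm → 0 ≤ x0 → 0 ≤ x1 → 0 ≤ y →
    (∀ p ∈ P, y ≤ p.1 * xm + p.2.1 * x0 + p.2.2 * x1) →
    y ^ ρ ≤ (1 / 4 + γ) * xm ^ ρ + (1 / 2 - β - γ) * x0 ^ ρ + (1 / 4 + β) * x1 ^ ρ

lemma exists_max (g : ℤ → ℝ) (z : ℤ) : ∃ e : ℤ, (e = 0 ∨ e = 1) ∧ g z ≤ g (z + e) ∧
    g (z + 1) ≤ g (z + e) := by
  rcases le_total (g z) (g (z + 1)) with h | h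
  · exact ⟨1, by simp, h, le_rfl⟩
  · exact ⟨0, by simp, by simp, by simpa using h⟩

lemma level_up {P : Set (ℝ × ℝ × ℝ)} {β γ r : ℝ} (hS : ScalarUp P β γ r) (hr : 0 ≤ r)
    (hβ : 0 ≤ β) (hβ' : β ≤ 1 / 4) (hγ : 0 ≤ γ) (hγ' : γ ≤ 1 / 4) {k : ℤ} {g g' : ℤ → ℝ}
    (hg : ∀ z, 0 ≤ g z)
    (H : ∀ p ∈ P, ∀ em e0 e1 : ℤ, (em = 0 ∨ em = 1) → (e0 = 0 ∨ e0 = 1) → (e1 = 0 ∨ e1 = 1) →
      ∀ z, p.1 * g (4 * z + k + em) + p.2.1 * g (4 * z + e0) + p.2.2 * g (4 * z - k + e1) ≤ g' z)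
    (z : ℤ) :
    (1 / 4 - β) * g (4 * z) ^ r + (1 / 4 - γ) * g (4 * z + 1) ^ r + 1 / 4 * g (4 * z - k) ^ r +
      β * g (4 * z - k + 1) ^ r + γ * g (4 * z + k) ^ r + 1 / 4 * g (4 * z + k + 1) ^ r ≤
        g' z ^ r := by
  obtain ⟨em, hem, hm, hm'⟩ := exists_max g (4 * z + k)
  obtain ⟨e0, he0, h0, h0'⟩ := exists_max g (4 * z)
  obtain ⟨e1, he1, h1, h1'⟩ := exists_max g (4 * z - k)
  have key := hS (g (4 * z + k + em)) (g (4 * z + e0)) (g (4 * z - k + e1)) (g' z) (hg _) (hg _)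
    (hg _) (fun p hp => H p hp em e0 e1 hem he0 he1 z)
  have a1 := Real.rpow_le_rpow (hg _) hm hr
  have a2 := Real.rpow_le_rpow (hg _) hm' hr
  have a3 := Real.rpow_le_rpow (hg _) h0 hr
  have a4 := Real.rpow_le_rpow (hg _) h0' hr
  have a5 := Real.rpow_le_rpow (hg _) h1 hr
  have a6 := Real.rpow_le_rpow (hg _) h1' hr
  have b1 := mul_le_mul_of_nonneg_left a1 hγ
  have b2 := mul_le_mul_of_nonneg_left a2 (show (0 : ℝ) ≤ 1 / 4 by norm_num)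
  have b3 := mul_le_mul_of_nonneg_left a3 (show (0 : ℝ) ≤ 1 / 4 - β by linarith)
  have b4 := mul_le_mul_of_nonneg_left a4 (show (0 : ℝ) ≤ 1 / 4 - γ by linarith)
  have b5 := mul_le_mul_of_nonneg_left a5 (show (0 : ℝ) ≤ 1 / 4 by norm_num)
  have b6 := mul_le_mul_of_nonneg_left a6 hβ
  nlinarith [key, b1, b2, b3, b4, b5, b6]

lemma level_down {P : Set (ℝ × ℝ × ℝ)} {β γ r : ℝ} (hS : ScalarDown P β γ r) (hr : 0 ≤ r)
    (hβ : 0 ≤ β) (hβ' : β ≤ 1 / 4) (hγ : 0 ≤ γ) (hγ' : γ ≤ 1 / 4) {k : ℤ} {g g' : ℤ → ℝ}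
    (hg : ∀ z, 0 ≤ g z) (hg' : ∀ z, 0 ≤ g' z)
    (H : ∀ p ∈ P, ∀ em e0 e1 : ℤ, (em = 0 ∨ em = 1) → (e0 = 0 ∨ e0 = 1) → (e1 = 0 ∨ e1 = 1) →
      ∀ z, g' z ≤ p.1 * g (4 * z + k + em) + p.2.1 * g (4 * z + e0) + p.2.2 * g (4 * z - k + e1))
    (z : ℤ) :
    g' z ^ r ≤
    (1 / 4 - β) * g (4 * z) ^ r + (1 / 4 - γ) * g (4 * z + 1) ^ r + 1 / 4 * g (4 * z - k) ^ r +
      β * g (4 * z - k + 1) ^ r + γ * g (4 * z + k) ^ r + 1 / 4 * g (4 * z + k + 1) ^ r := by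
  obtain ⟨em, hem, hm, hm'⟩ := exists_max (fun z => - g z) (4 * z + k)
  obtain ⟨e0, he0, h0, h0'⟩ := exists_max (fun z => - g z) (4 * z)
  obtain ⟨e1, he1, h1, h1'⟩ := exists_max (fun z => - g z) (4 * z - k)
  simp only [neg_le_neg_iff] at hm hm' h0 h0' h1 h1'
  have key := hS (g (4 * z + k + em)) (g (4 * z + e0)) (g (4 * z - k + e1)) (g' z) (hg _) (hg _)
    (hg _) (hg' _) (fun p hp => H p hp em e0 e1 hem he0 he1 z)
  have a1 := Real.rpow_le_rpow (hg _) hm hr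
  have a2 := Real.rpow_le_rpow (hg _) hm' hr
  have a3 := Real.rpow_le_rpow (hg _) h0 hr
  have a4 := Real.rpow_le_rpow (hg _) h0' hr
  have a5 := Real.rpow_le_rpow (hg _) h1 hr
  have a6 := Real.rpow_le_rpow (hg _) h1' hr
  have b1 := mul_le_mul_of_nonneg_left a1 hγ
  have b2 := mul_le_mul_of_nonneg_left a2 (show (0 : ℝ) ≤ 1 / 4 by norm_num)
  have b3 := mul_le_mul_of_nonneg_left a3 (show (0 : ℝ) ≤ 1 / 4 - β by linarith)
  have b4 := mul_le_mul_of_nonneg_left a4 (show (0 : ℝ) ≤ 1 / 4 - γ by linarith)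
  have b5 := mul_le_mul_of_nonneg_left a5 (show (0 : ℝ) ≤ 1 / 4 by norm_num)
  have b6 := mul_le_mul_of_nonneg_left a6 hβ
  nlinarith [key, b1, b2, b3, b4, b5, b6]

/-- A sequence of `4^(u+1)`-periodic functions satisfying the one-step inequality. -/
structure Chain (P : Set (ℝ × ℝ × ℝ)) (k : ℤ) (u : ℕ) (F : ℕ → ℤ → ℝ) : Prop where
  per : ∀ n x, F n (x + 4 ^ (u + 1)) = F n x
  nonneg : ∀ n x, 0 ≤ F n x
  le_one : ∀ n x, F n x ≤ 1
  step : ∀ n, ∀ p ∈ P, ∀ em e0 e1 : ℤ, (em = 0 ∨ em = 1) → (e0 = 0 ∨ e0 = 1) →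
    (e1 = 0 ∨ e1 = 1) → ∀ ζ : ℤ,
      p.1 * F n (4 * ζ + k + em) + p.2.1 * F n (4 * ζ + e0) + p.2.2 * F n (4 * ζ - k + e1) ≤
      (F (n + 1) ζ + F (n + 1) (ζ + 4 ^ u) + F (n + 1) (ζ + 2 * 4 ^ u) +
        F (n + 1) (ζ + 3 * 4 ^ u)) / 4

lemma lev_nonneg {s i : ℕ} {F : ℤ → ℝ} (h : ∀ x, 0 ≤ F x) (z : ℤ) : 0 ≤ lev s i F z := by
  unfold lev
  apply div_nonneg (Finset.sum_nonneg fun c _ => h _) (by positivity)

lemma lev_le_one {s i : ℕ} {F : ℤ → ℝ} (h : ∀ x, F x ≤ 1) (z : ℤ) : lev s i F z ≤ 1 := by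
  unfold lev
  rw [div_le_one (by positivity)]
  calc ∑ c ∈ range (4 ^ i), F (z + 4 ^ s * c) ≤ ∑ c ∈ range (4 ^ i), (1 : ℝ) :=
        Finset.sum_le_sum fun c _ => h _
    _ = 4 ^ i := by simp

theorem block_up {P : Set (ℝ × ℝ × ℝ)} {β γ r : ℝ} (hS : ScalarUp P β γ r) (hr : 0 ≤ r)
    (hβ : 0 ≤ β) (hβ' : β ≤ 1 / 4) (hγ : 0 ≤ γ) (hγ' : γ ≤ 1 / 4) {k q : ℤ} (hk : k = 4 * q + 1)
    {u : ℕ} {F : ℕ → ℤ → ℝ} (hF : Chain P k u F) (n : ℕ) :
    mean (u + 1) (fun z => F n z ^ r) ≤ (mean (u + 1) (F (n + (u + 1)))) ^ r := by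
  have main : ∀ i s : ℕ, s + i = u + 1 →
      mean (u + 1) (fun z => F n z ^ r) ≤ mean s (fun z => lev s i (F (n + i)) z ^ r) := by
    intro i
    induction i with
    | zero =>
      intro s hs
      have : s = u + 1 := by omega
      subst this
      simp [lev_zero]
    | succ i ih =>
      intro s hs
      have h1 := ih (s + 1) (by omega)
      refine h1.trans ?_
      have hu : s + i = u := by omega
      refine mean_step hk (β := β) (γ := γ) ?_ ?_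
      · intro x
        rw [lev_periodic]
        intro y
        rw [show s + 1 + i = u + 1 by omega]
        exact hF.per _ _
      · refine level_up hS hr hβ hβ' hγ hγ' (fun z => lev_nonneg (hF.nonneg _) z) ?_
        intro p hp em e0 e1 hem he0 he1 z
        refine lev_step ?_ z
        intro ζ
        rw [hu]
        exact hF.step (n + i) p hp em e0 e1 hem he0 he1 ζ
  have := main (u + 1) 0 (by omega)
  rwa [mean_zero, lev_top] at this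

theorem block_down {P : Set (ℝ × ℝ × ℝ)} {β γ r : ℝ} (hP : ∀ p ∈ P, p.1 + p.2.1 + p.2.2 = 1)
    (hS : ScalarDown P β γ r) (hr : 0 ≤ r)
    (hβ : 0 ≤ β) (hβ' : β ≤ 1 / 4) (hγ : 0 ≤ γ) (hγ' : γ ≤ 1 / 4) {k q : ℤ} (hk : k = 4 * q + 1)
    {u : ℕ} {F : ℕ → ℤ → ℝ} (hF : Chain P k u F) (n : ℕ) :
    (1 - mean (u + 1) (F (n + (u + 1)))) ^ r ≤ mean (u + 1) (fun z => (1 - F n z) ^ r) := by
  have main : ∀ i s : ℕ, s + i = u + 1 →
      mean s (fun z => (1 - lev s i (F (n + i)) z) ^ r) ≤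
        mean (u + 1) (fun z => (1 - F n z) ^ r) := by
    intro i
    induction i with
    | zero =>
      intro s hs
      have : s = u + 1 := by omega
      subst this
      simp [lev_zero]
    | succ i ih =>
      intro s hs
      have h1 := ih (s + 1) (by omega)
      refine le_trans ?_ h1
      have hu : s + i = u := by omega
      have hneg : ∀ (s : ℕ) (g : ℤ → ℝ), mean s (fun z => - g z) = - mean s g := by
        intro s g
        simp [mean, neg_div]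
      rw [← neg_le_neg_iff, ← hneg, ← hneg]
      refine mean_step hk (β := β) (γ := γ) ?_ ?_
      · intro x
        rw [lev_periodic]
        intro y
        rw [show s + 1 + i = u + 1 by omega]
        exact hF.per _ _
      · intro z
        have key := level_down (g := fun z => 1 - lev (s + 1) i (F (n + i)) z)
          (g' := fun z => 1 - lev s (i + 1) (F (n + (i + 1))) z) (k := k) hS hr hβ hβ' hγ hγ'
          (fun z => by have := lev_le_one (s := s + 1) (i := i) (hF.le_one (n + i)) z; linarith)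
          (fun z => by
            have := lev_le_one (s := s) (i := i + 1) (hF.le_one (n + (i + 1))) z
            linarith)
          (by
            intro p hp em e0 e1 hem he0 he1 z
            have hp1 := hP p hp
            have h2 := lev_step (s := s) (i := i) (k := k) (F := F (n + i))
              (F' := F (n + (i + 1))) (pm := p.1) (p0 := p.2.1) (p1 := p.2.2) (em := em)
              (e0 := e0) (e1 := e1) (by
                intro ζ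
                rw [hu]
                exact hF.step (n + i) p hp em e0 e1 hem he0 he1 ζ) z
            nlinarith [h2, hp1]) z
        linarith [key]
  have := main (u + 1) 0 (by omega)
  rwa [mean_zero, lev_top] at this

end Pool.Agent.H6.LvdP2
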