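import Pool.Agent.H6.LvdP2.Graph

/-! The one-step union inequality for `4^t + 4 < |k|`, `8|k| + 4 < 11·4^t`. -/

namespace Pool.Agent.H6.LvdP2

open Pool.Agent.H98.LvdP

/-- targets of a present source -/
lemma source_targets {k : ℤ} {u n : ℕ} {ζ a e : ℤ} (ha : a = -1 ∨ a = 0 ∨ a = 1)
    (he : e = 0 ∨ e = 1) (h : ind k (u + 1) n (4 * ζ - k * a + e) = 1) :
    ∃ m w : ℤ, Reach k (u + 1) n w ∧ w = 4 * ζ - k * a + e + 4 ^ (u + 1) * m ∧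
      Reach k (u + 1) (n + 1) (ζ + 4 ^ u * m) ∧ Reach k (u + 1) (n + 1) (ζ + 4 ^ u * (m + 1)) := by
  obtain ⟨w, hw, m, hm⟩ := ind_eq_one.1 h
  refine ⟨m, w, hw, by linarith, ⟨w, hw, a, 0, e, ha, by simp, he, ?_⟩,
    ⟨w, hw, a, 1, e, ha, by simp, he, ?_⟩⟩
  · have : w = 4 * ζ - k * a + e + 4 ^ (u + 1) * m := by linarith
    rw [this, pow_succ]; ring
  · have : w = 4 * ζ - k * a + e + 4 ^ (u + 1) * m := by linarith
    rw [this, pow_succ]; ring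

lemma ind_of_reach {k : ℤ} {u n : ℕ} {ζ m j : ℤ} (h : Reach k (u + 1) n (ζ + 4 ^ u * m))
    (hj : (4 : ℤ) ∣ m - j) : ind k (u + 1) n (ζ + j * 4 ^ u) = 1 := by
  refine ind_eq_one.2 ⟨_, h, ?_⟩
  obtain ⟨c, hc⟩ := hj
  refine ⟨c, ?_⟩
  have : m = j + 4 * c := by linarith
  rw [this, pow_succ]; ring

lemma cover {k : ℤ} {u n : ℕ} {ζ m : ℤ} (h0 : Reach k (u + 1) n (ζ + 4 ^ u * m))
    (h1 : Reach k (u + 1) n (ζ + 4 ^ u * (m + 1))) :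
    (m % 4 = 0 ∧ ind k (u + 1) n (ζ + 0 * 4 ^ u) = 1 ∧ ind k (u + 1) n (ζ + 1 * 4 ^ u) = 1) ∨
    (m % 4 = 1 ∧ ind k (u + 1) n (ζ + 1 * 4 ^ u) = 1 ∧ ind k (u + 1) n (ζ + 2 * 4 ^ u) = 1) ∨
    (m % 4 = 2 ∧ ind k (u + 1) n (ζ + 2 * 4 ^ u) = 1 ∧ ind k (u + 1) n (ζ + 3 * 4 ^ u) = 1) ∨
    (m % 4 = 3 ∧ ind k (u + 1) n (ζ + 3 * 4 ^ u) = 1 ∧ ind k (u + 1) n (ζ + 0 * 4 ^ u) = 1) := by
  have hm : m % 4 = 0 ∨ m % 4 = 1 ∨ m % 4 = 2 ∨ m % 4 = 3 := by omega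
  rcases hm with h | h | h | h
  · exact Or.inl ⟨h, ind_of_reach h0 (by omega), ind_of_reach h1 (by omega)⟩
  · exact Or.inr (Or.inl ⟨h, ind_of_reach h0 (by omega), ind_of_reach h1 (by omega)⟩)
  · exact Or.inr (Or.inr (Or.inl ⟨h, ind_of_reach h0 (by omega), ind_of_reach h1 (by omega)⟩))
  · exact Or.inr (Or.inr (Or.inr ⟨h, ind_of_reach h0 (by omega), ind_of_reach h1 (by omega)⟩))

/-- positions of different sources are distinct mod 4 -/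
lemma distinct {k N : ℤ} (hk1 : N + 4 < |k|) (hk2 : 8 * |k| + 4 < 11 * N) {w w' m m' a a' e e' : ℤ}
    (hw : -(|k| + 1) ≤ 3 * w ∧ 3 * w ≤ |k| + N) (hw' : -(|k| + 1) ≤ 3 * w' ∧ 3 * w' ≤ |k| + N)
    (ha : a = -1 ∨ a = 0 ∨ a = 1) (ha' : a' = -1 ∨ a' = 0 ∨ a' = 1) (hne : a ≠ a')
    (he : e = 0 ∨ e = 1) (he' : e' = 0 ∨ e' = 1)
    (h : N * (m - m') = (w - w') + k * (a - a') - (e - e')) : m % 4 ≠ m' % 4 := by
  intro hmm
  obtain ⟨c, hc⟩ : ∃ c, m - m' = 4 * c := ⟨(m - m') / 4, by omega⟩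
  rw [hc] at h
  have hN : 0 < N := by
    have := abs_nonneg k
    linarith
  have hE : -1 ≤ e - e' ∧ e - e' ≤ 1 := by
    rcases he with rfl | rfl <;> rcases he' with rfl | rfl <;> simp
  -- `x = (w - w') - (e - e')`
  have hx1 : 3 * ((w - w') - (e - e')) ≤ 2 * |k| + N + 4 := by linarith [hw.2, hw'.1, hE.1]
  have hx2 : -(2 * |k| + N + 4) ≤ 3 * ((w - w') - (e - e')) := by linarith [hw.1, hw'.2, hE.2]
  have hδ : a - a' = 1 ∨ a - a' = -1 ∨ a - a' = 2 ∨ a - a' = -2 := by omega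
  have hc' : c = 0 ∨ 1 ≤ c ∨ c ≤ -1 := by omega
  have hcN : c = 0 ∨ 4 * N ≤ N * (4 * c) ∨ N * (4 * c) ≤ -(4 * N) := by
    rcases hc' with h0 | h0 | h0
    · exact Or.inl h0
    · right; left; nlinarith
    · right; right; nlinarith
  rcases abs_cases k with ⟨hk, hk0⟩ | ⟨hk, hk0⟩ <;> rw [hk] at hk1 hk2 hx1 hx2 <;>
    rcases hδ with hδ | hδ | hδ | hδ <;> rw [hδ] at h <;>
    rcases hcN with h0 | h0 | h0
  all_goals first
    | (rw [h0] at h; linarith)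
    | linarith

theorem one_step {k : ℤ} {u : ℕ} (hk1 : 4 ^ (u + 1) + 4 < |k|)
    (hk2 : 8 * |k| + 4 < 11 * 4 ^ (u + 1)) (n : ℕ) (ζ em e0 e1 : ℤ) (hem : em = 0 ∨ em = 1)
    (he0 : e0 = 0 ∨ e0 = 1) (he1 : e1 = 0 ∨ e1 = 1) (y : ℝ)
    (hy : y ≤ ind k (u + 1) n (4 * ζ + k + em) ∨ y ≤ ind k (u + 1) n (4 * ζ + e0) ∨
      y ≤ ind k (u + 1) n (4 * ζ - k + e1)) :
    ind k (u + 1) n (4 * ζ + k + em) + ind k (u + 1) n (4 * ζ + e0) +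
      ind k (u + 1) n (4 * ζ - k + e1) + y ≤
    ind k (u + 1) (n + 1) ζ + ind k (u + 1) (n + 1) (ζ + 4 ^ u) +
      ind k (u + 1) (n + 1) (ζ + 2 * 4 ^ u) + ind k (u + 1) (n + 1) (ζ + 3 * 4 ^ u) := by
  have rm : 4 * ζ + k + em = 4 * ζ - k * (-1) + em := by ring
  have r0 : 4 * ζ + e0 = 4 * ζ - k * 0 + e0 := by ring
  have r1 : 4 * ζ - k + e1 = 4 * ζ - k * 1 + e1 := by ring
  have f0 : ind k (u + 1) (n + 1) ζ = ind k (u + 1) (n + 1) (ζ + 0 * 4 ^ u) := by simp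
  have f1 : ind k (u + 1) (n + 1) (ζ + 4 ^ u) = ind k (u + 1) (n + 1) (ζ + 1 * 4 ^ u) := by simp
  rw [f0, f1]
  have g0 := ind_nonneg k (u + 1) (n + 1) (ζ + 0 * 4 ^ u)
  have g1 := ind_nonneg k (u + 1) (n + 1) (ζ + 1 * 4 ^ u)
  have g2 := ind_nonneg k (u + 1) (n + 1) (ζ + 2 * 4 ^ u)
  have g3 := ind_nonneg k (u + 1) (n + 1) (ζ + 3 * 4 ^ u)
  have src : ∀ a e : ℤ, (a = -1 ∨ a = 0 ∨ a = 1) → (e = 0 ∨ e = 1) →
      ind k (u + 1) n (4 * ζ - k * a + e) = 1 → _ :=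
    fun a e ha he h => source_targets (k := k) (u := u) (n := n) (ζ := ζ) ha he h
  have dist : ∀ a a' e e' m m' w w' : ℤ, (a = -1 ∨ a = 0 ∨ a = 1) → (a' = -1 ∨ a' = 0 ∨ a' = 1) →
      a ≠ a' → (e = 0 ∨ e = 1) → (e' = 0 ∨ e' = 1) → Reach k (u + 1) n w →
      Reach k (u + 1) n w' → w = 4 * ζ - k * a + e + 4 ^ (u + 1) * m →
      w' = 4 * ζ - k * a' + e' + 4 ^ (u + 1) * m' → m % 4 ≠ m' % 4 := by
    intro a a' e e' m m' w w' ha ha' hne he he' hw hw' h h'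
    refine distinct hk1 hk2 hw.bounds hw'.bounds ha ha' hne he he' ?_
    rw [h, h']; ring
  rcases ind_eq k (u + 1) n (4 * ζ + k + em) with hm | hm <;>
    rcases ind_eq k (u + 1) n (4 * ζ + e0) with h0 | h0 <;>
    rcases ind_eq k (u + 1) n (4 * ζ - k + e1) with h1 | h1 <;>
    simp only [hm, h0, h1] at hy ⊢
  · have : y ≤ 0 := by rcases hy with h | h | h <;> exact h
    linarith
  · have hy1 : y ≤ 1 := by rcases hy with h | h | h <;> linarith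
    obtain ⟨m1, w1, hw1, e1', t1, t1'⟩ := src 1 e1 (by simp) he1 (by rw [← r1]; exact h1)
    rcases cover t1 t1' with ⟨c, c1, c2⟩ | ⟨c, c1, c2⟩ | ⟨c, c1, c2⟩ | ⟨c, c1, c2⟩ <;> linarith
  · have hy1 : y ≤ 1 := by rcases hy with h | h | h <;> linarith
    obtain ⟨m0, w0, hw0, e0', t0, t0'⟩ := src 0 e0 (by simp) he0 (by rw [← r0]; exact h0)
    rcases cover t0 t0' with ⟨c, c1, c2⟩ | ⟨c, c1, c2⟩ | ⟨c, c1, c2⟩ | ⟨c, c1, c2⟩ <;> linarith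
  · have hy1 : y ≤ 1 := by rcases hy with h | h | h <;> linarith
    obtain ⟨m0, w0, hw0, e0', t0, t0'⟩ := src 0 e0 (by simp) he0 (by rw [← r0]; exact h0)
    obtain ⟨m1, w1, hw1, e1', t1, t1'⟩ := src 1 e1 (by simp) he1 (by rw [← r1]; exact h1)
    have d01 := dist 0 1 _ _ _ _ _ _ (by simp) (by simp) (by norm_num) he0 he1 hw0 hw1 e0' e1'
    rcases cover t0 t0' with ⟨c, c1, c2⟩ | ⟨c, c1, c2⟩ | ⟨c, c1, c2⟩ | ⟨c, c1, c2⟩ <;>
      rcases cover t1 t1' with ⟨c', c1', c2'⟩ | ⟨c', c1', c2'⟩ | ⟨c', c1', c2'⟩ | ⟨c', c1', c2'⟩ <;>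
      first
        | (exfalso; omega)
        | linarith
  · have hy1 : y ≤ 1 := by rcases hy with h | h | h <;> linarith
    obtain ⟨mm, wm, hwm, em', tm, tm'⟩ := src (-1) em (by simp) hem (by rw [← rm]; exact hm)
    rcases cover tm tm' with ⟨c, c1, c2⟩ | ⟨c, c1, c2⟩ | ⟨c, c1, c2⟩ | ⟨c, c1, c2⟩ <;> linarith
  · have hy1 : y ≤ 1 := by rcases hy with h | h | h <;> linarith
    obtain ⟨mm, wm, hwm, em', tm, tm'⟩ := src (-1) em (by simp) hem (by rw [← rm]; exact hm)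
    obtain ⟨m1, w1, hw1, e1', t1, t1'⟩ := src 1 e1 (by simp) he1 (by rw [← r1]; exact h1)
    have d01 := dist (-1) 1 _ _ _ _ _ _ (by simp) (by simp) (by norm_num) hem he1 hwm hw1 em' e1'
    rcases cover tm tm' with ⟨c, c1, c2⟩ | ⟨c, c1, c2⟩ | ⟨c, c1, c2⟩ | ⟨c, c1, c2⟩ <;>
      rcases cover t1 t1' with ⟨c', c1', c2'⟩ | ⟨c', c1', c2'⟩ | ⟨c', c1', c2'⟩ | ⟨c', c1', c2'⟩ <;>
      first
        | (exfalso; omega)
        | linarith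
  · have hy1 : y ≤ 1 := by rcases hy with h | h | h <;> linarith
    obtain ⟨mm, wm, hwm, em', tm, tm'⟩ := src (-1) em (by simp) hem (by rw [← rm]; exact hm)
    obtain ⟨m0, w0, hw0, e0', t0, t0'⟩ := src 0 e0 (by simp) he0 (by rw [← r0]; exact h0)
    have d01 := dist (-1) 0 _ _ _ _ _ _ (by simp) (by simp) (by norm_num) hem he0 hwm hw0 em' e0'
    rcases cover tm tm' with ⟨c, c1, c2⟩ | ⟨c, c1, c2⟩ | ⟨c, c1, c2⟩ | ⟨c, c1, c2⟩ <;>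
      rcases cover t0 t0' with ⟨c', c1', c2'⟩ | ⟨c', c1', c2'⟩ | ⟨c', c1', c2'⟩ | ⟨c', c1', c2'⟩ <;>
      first
        | (exfalso; omega)
        | linarith
  · have hy1 : y ≤ 1 := by rcases hy with h | h | h <;> linarith
    obtain ⟨mm, wm, hwm, em', tm, tm'⟩ := src (-1) em (by simp) hem (by rw [← rm]; exact hm)
    obtain ⟨m0, w0, hw0, e0', t0, t0'⟩ := src 0 e0 (by simp) he0 (by rw [← r0]; exact h0)
    obtain ⟨m1, w1, hw1, e1', t1, t1'⟩ := src 1 e1 (by simp) he1 (by rw [← r1]; exact h1)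
    have dm0 := dist (-1) 0 _ _ _ _ _ _ (by simp) (by simp) (by norm_num) hem he0 hwm hw0 em' e0'
    have dm1 := dist (-1) 1 _ _ _ _ _ _ (by simp) (by simp) (by norm_num) hem he1 hwm hw1 em' e1'
    have d01 := dist 0 1 _ _ _ _ _ _ (by simp) (by simp) (by norm_num) he0 he1 hw0 hw1 e0' e1'
    rcases cover tm tm' with ⟨c, c1, c2⟩ | ⟨c, c1, c2⟩ | ⟨c, c1, c2⟩ | ⟨c, c1, c2⟩ <;>
      rcases cover t0 t0' with ⟨c', c1', c2'⟩ | ⟨c', c1', c2'⟩ | ⟨c', c1', c2'⟩ | ⟨c', c1', c2'⟩ <;>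
      (try (exfalso; omega)) <;>
      rcases cover t1 t1' with ⟨c'', d1, d2⟩ | ⟨c'', d1, d2⟩ | ⟨c'', d1, d2⟩ | ⟨c'', d1, d2⟩ <;>
      first
        | (exfalso; omega)
        | linarith

theorem chain {k : ℤ} {u : ℕ} (hk1 : 4 ^ (u + 1) + 4 < |k|)
    (hk2 : 8 * |k| + 4 < 11 * 4 ^ (u + 1)) : Chain P1 k u (ind k (u + 1)) where
  per n x := by
    apply ind_congr
    exact ⟨1, by ring⟩
  nonneg n x := ind_nonneg _ _ _ _
  le_one n x := ind_le_one _ _ _ _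
  step n p hp em e0 e1 hem he0 he1 ζ := by
    have a1 := one_step hk1 hk2 n ζ em e0 e1 hem he0 he1 _ (Or.inl le_rfl)
    have a2 := one_step hk1 hk2 n ζ em e0 e1 hem he0 he1 _ (Or.inr (Or.inl le_rfl))
    have a3 := one_step hk1 hk2 n ζ em e0 e1 hem he0 he1 _ (Or.inr (Or.inr le_rfl))
    simp only [P1, Set.mem_insert_iff, Set.mem_singleton_iff] at hp
    rcases hp with rfl | rfl | rfl
    · simp only; linarith
    · simp only; linarith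
    · simp only; linarith

end Pool.Agent.H6.LvdP2
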